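import Mathlib

/-!
# The triangle is uniquely `S`-weight colourable for every three-element set `S` of reals
-/

namespace Pool.Agent.Results.MP_9e9a14_co.TriangleUnique

open scoped Classical

variable {V : Type} [Fintype V]

/-- The sum of the weights of the edges of `G` at the vertex `v`. -/
noncomputable def vertexSum (G : SimpleGraph V) (w : G.edgeSet → ℝ) (v : V) : ℝ :=
  ∑ e : G.edgeSet, if v ∈ (e : Sym2 V) then w e else 0

/-- `w` is an edge `S`-weighting of `G` that properly colours `V(G)` by sums. -/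
def ProperWeighting (S : Set ℝ) (G : SimpleGraph V) (w : G.edgeSet → ℝ) : Prop :=
  (∀ e, w e ∈ S) ∧ ∀ u v, G.Adj u v → vertexSum G w u ≠ vertexSum G w v

/-- Two edge weightings of `G` are isomorphic: some automorphism of `G` carries one to the
other. -/
def IsomorphicWeightings (G : SimpleGraph V) (w w' : G.edgeSet → ℝ) : Prop :=
  ∃ φ : G ≃g G, ∀ e : G.edgeSet, w' (φ.mapEdgeSet e) = w e

/-- `G` is uniquely `S`-weight colourable. -/
def UniquelyWeightColourable (S : Set ℝ) (G : SimpleGraph V) : Prop :=
  (∃ w, ProperWeighting S G w) ∧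
    ∀ w w', ProperWeighting S G w → ProperWeighting S G w' → IsomorphicWeightings G w w'

/-- The edge of the triangle opposite to the vertex `i`. -/
def opp (i : Fin 3) : (⊤ : SimpleGraph (Fin 3)).edgeSet :=
  ⟨s(i + 1, i + 2), by
    rw [SimpleGraph.mem_edgeSet, SimpleGraph.top_adj]
    revert i; decide⟩

lemma mem_opp (i v : Fin 3) : v ∈ ((opp i : (⊤ : SimpleGraph (Fin 3)).edgeSet) : Sym2 (Fin 3)) ↔
    v ≠ i := by
  simp only [opp, Sym2.mem_iff]
  revert i v; decide

lemma opp_injective : Function.Injective opp := by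
  intro i j h
  by_contra hne
  have h1 : i ∈ ((opp j : (⊤ : SimpleGraph (Fin 3)).edgeSet) : Sym2 (Fin 3)) :=
    (mem_opp j i).2 hne
  rw [← h] at h1
  exact (mem_opp i i).1 h1 rfl

lemma opp_surjective : Function.Surjective opp := by
  rintro ⟨e, he⟩
  induction e using Sym2.ind with
  | _ a b =>
    rw [SimpleGraph.mem_edgeSet, SimpleGraph.top_adj] at he
    have : ∃ i : Fin 3, s(i + 1, i + 2) = s(a, b) := by
      revert a b; decide
    obtain ⟨i, hi⟩ := this
    exact ⟨i, Subtype.ext hi⟩

/-- The vertices of the triangle, as a bijection with the opposite edges. -/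
noncomputable def oppEquiv : Fin 3 ≃ (⊤ : SimpleGraph (Fin 3)).edgeSet :=
  Equiv.ofBijective opp ⟨opp_injective, opp_surjective⟩

lemma oppEquiv_apply (i : Fin 3) : oppEquiv i = opp i := rfl

lemma vertexSum_top (w : (⊤ : SimpleGraph (Fin 3)).edgeSet → ℝ) (v : Fin 3) :
    vertexSum ⊤ w v = (∑ i : Fin 3, w (opp i)) - w (opp v) := by
  have h1 : vertexSum ⊤ w v = ∑ i : Fin 3, if v ≠ i then w (opp i) else 0 := by
    unfold vertexSum
    symm
    refine (Fintype.sum_equiv oppEquiv (fun i => if v ≠ i then w (opp i) else (0 : ℝ))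
      (fun e => if v ∈ (e : Sym2 (Fin 3)) then w e else (0 : ℝ)) fun i => ?_).trans
      (Finset.sum_congr (by ext; simp) fun _ _ => by split_ifs <;> rfl)
    by_cases h : v ≠ i
    · have h' : v ∈ ((oppEquiv i : (⊤ : SimpleGraph (Fin 3)).edgeSet) : Sym2 (Fin 3)) :=
        (mem_opp i v).2 h
      rw [if_pos h, if_pos h', oppEquiv_apply]
    · have h' : v ∉ ((oppEquiv i : (⊤ : SimpleGraph (Fin 3)).edgeSet) : Sym2 (Fin 3)) :=
        fun h' => h ((mem_opp i v).1 h')
      rw [if_neg h, if_neg h']
  rw [h1]
  have h2 : ∀ i : Fin 3, (if v ≠ i then w (opp i) else 0) =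
      w (opp i) - if v = i then w (opp i) else 0 := by
    intro i
    by_cases h : v = i
    · simp [h]
    · simp [h]
  rw [Finset.sum_congr rfl fun i _ => h2 i, Finset.sum_sub_distrib]
  congr 1
  rw [Finset.sum_ite_eq]
  simp

lemma proper_iff (S : Set ℝ) (w : (⊤ : SimpleGraph (Fin 3)).edgeSet → ℝ) :
    ProperWeighting S ⊤ w ↔
      (∀ i, w (opp i) ∈ S) ∧ Function.Injective fun i => w (opp i) := by
  unfold ProperWeighting
  constructor
  · rintro ⟨h1, h2⟩
    refine ⟨fun i => h1 _, ?_⟩
    intro i j hij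
    by_contra hne
    refine h2 i j ((SimpleGraph.top_adj i j).2 hne) ?_
    rw [vertexSum_top, vertexSum_top]
    simp only at hij
    rw [hij]
  · rintro ⟨h1, h2⟩
    refine ⟨fun e => ?_, ?_⟩
    · obtain ⟨i, rfl⟩ := opp_surjective e
      exact h1 i
    · intro u v huv h
      rw [vertexSum_top, vertexSum_top] at h
      refine huv (h2 ?_)
      simp only
      linarith

/-- For every set `S` of exactly three real numbers, the triangle `K₃` has exactly one edge
`S`-weighting, up to isomorphism, that properly colours its vertices by sums. In particular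
(with `S = {1, 2, 3}`) there is a uniquely `{1, 2, 3}`-weight colourable graph with an edge. -/
theorem result :
    (∀ S : Set ℝ, S.ncard = 3 →
      UniquelyWeightColourable S (⊤ : SimpleGraph (Fin 3))) ∧
    UniquelyWeightColourable {1, 2, 3} (⊤ : SimpleGraph (Fin 3)) ∧
    (⊤ : SimpleGraph (Fin 3)).edgeSet.Nonempty := by
  have main : ∀ S : Set ℝ, S.ncard = 3 →
      UniquelyWeightColourable S (⊤ : SimpleGraph (Fin 3)) := by
    intro S hS
    have hfin : S.Finite := Set.finite_of_ncard_ne_zero (by omega)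
    have hcard : Nat.card S = 3 := hS
    have : Finite S := hfin
    have : Fintype S := Fintype.ofFinite S
    have hfc : Fintype.card S = 3 := by rw [← Nat.card_eq_fintype_card]; exact hcard
    refine ⟨?_, ?_⟩
    · have e : Fin 3 ≃ S := (Fintype.equivFinOfCardEq hfc).symm
      refine ⟨fun x => (e (oppEquiv.symm x) : ℝ), ?_⟩
      rw [proper_iff]
      have h : ∀ i, oppEquiv.symm (opp i) = i := fun i => by
        rw [← oppEquiv_apply, Equiv.symm_apply_apply]
      refine ⟨fun i => (e _).2, ?_⟩
      intro i j hij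
      simp only [h] at hij
      exact e.injective (Subtype.ext hij)
    · intro w w' hw hw'
      rw [proper_iff] at hw hw'
      obtain ⟨h1, h2⟩ := hw
      obtain ⟨h1', h2'⟩ := hw'
      let f : Fin 3 → S := fun i => ⟨w (opp i), h1 i⟩
      let f' : Fin 3 → S := fun i => ⟨w' (opp i), h1' i⟩
      have hf : Function.Bijective f := by
        rw [Fintype.bijective_iff_injective_and_card]
        refine ⟨fun i j h => h2 (congrArg Subtype.val h), ?_⟩
        rw [hfc]; simp
      have hf' : Function.Bijective f' := by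
        rw [Fintype.bijective_iff_injective_and_card]
        refine ⟨fun i j h => h2' (congrArg Subtype.val h), ?_⟩
        rw [hfc]; simp
      let σ : Equiv.Perm (Fin 3) := (Equiv.ofBijective f hf).trans (Equiv.ofBijective f' hf').symm
      have hσ : ∀ i, f' (σ i) = f i := by
        intro i
        change (Equiv.ofBijective f' hf') ((Equiv.ofBijective f' hf').symm
          ((Equiv.ofBijective f hf) i)) = f i
        rw [Equiv.apply_symm_apply]
        rfl
      let φ : (⊤ : SimpleGraph (Fin 3)) ≃g (⊤ : SimpleGraph (Fin 3)) :=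
        ⟨σ, by intro a b; simp⟩
      refine ⟨φ, ?_⟩
      intro e
      obtain ⟨i, rfl⟩ := opp_surjective e
      have hmap : φ.mapEdgeSet (opp i) = opp (σ i) := by
        obtain ⟨j, hj⟩ := opp_surjective (φ.mapEdgeSet (opp i))
        rw [← hj]
        congr 1
        by_contra hne
        have h3 : σ i ∈ ((opp j : (⊤ : SimpleGraph (Fin 3)).edgeSet) : Sym2 (Fin 3)) :=
          (mem_opp j (σ i)).2 (fun h => hne h.symm)
        rw [hj] at h3
        have h4 : ((φ.mapEdgeSet (opp i) : (⊤ : SimpleGraph (Fin 3)).edgeSet) : Sym2 (Fin 3)) =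
            Sym2.map σ ((opp i : (⊤ : SimpleGraph (Fin 3)).edgeSet) : Sym2 (Fin 3)) := rfl
        rw [h4, Sym2.mem_map] at h3
        obtain ⟨a, ha, hai⟩ := h3
        exact (mem_opp i a).1 ha (σ.injective hai)
      rw [hmap]
      exact congrArg Subtype.val (hσ i)
  refine ⟨main, main _ ?_, ?_⟩
  · rw [Set.ncard_eq_three]
    exact ⟨1, 2, 3, by norm_num, by norm_num, by norm_num, rfl⟩
  · exact ⟨_, (opp 0).2⟩

end Pool.Agent.Results.MP_9e9a14_co.TriangleUnique
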